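import Pool.Agent.Lib.MP_b9c6dd_an.X.A.Main
import Pool.Agent.Lib.MP_b9c6dd_an.X.E.TowerEx

/-!
# The counterexample
-/

set_option autoImplicit false

namespace Pool.Agent.B9x

theorem not_main_aux :
    ¬ (∀ (A : Type) [CStarAlgebra A] (α : A ≃⋆ₐ[ℂ] A),
    Dense {x : A | IsUnit x} →
    (∃ d : ℕ, ∀ (F : Finset A) (ε : ℝ), 0 < ε → ∀ q : ℕ,
      ∃ f : Fin (d + 1) → Fin (q + 1) → A,
        (∀ l j, (∃ g : A, f l j = star g * g) ∧ ‖f l j‖ ≤ 1) ∧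
        (∀ l j k, j ≠ k → ‖f l j * f l k‖ < ε) ∧
        (∀ l j, ‖α (f l j) - f l (j + 1)‖ < ε) ∧
        ‖(∑ l, ∑ j, f l j) - 1‖ < ε ∧
        (∀ l j, ∀ a ∈ F, ‖f l j * a - a * f l j‖ < ε) ∧
        (∀ l m j k, ‖f l j * f m k - f m k * f l j‖ < ε)) →
    ∀ (B : Type) [CStarAlgebra B] (ι : A →⋆ₐ[ℂ] B) (u : B),
      Function.Injective ι →
      u ∈ unitary B →
      (∀ a : A, u * ι a * star u = ι (α a)) →
      (StarAlgebra.adjoin ℂ (Set.range (ι : A → B) ∪ {u})).topologicalClosure = ⊤ →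
      (∀ z : ℂ, ‖z‖ = 1 →
        ∃ γ : B →⋆ₐ[ℂ] B, (∀ a : A, γ (ι a) = ι a) ∧ γ u = z • u) →
      IsSimpleRing B →
      Dense {x : B | IsUnit x}) := A.main_of_tower E.theTower

end Pool.Agent.B9x
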